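import Pool.Agent.FTU.Stmts

/-!
# FTU, row EVR: evaluation of the polynomials
-/

set_option autoImplicit false

open MeasureTheory Complex ProbabilityTheory

namespace Pool.Agent.FTU.H19

open Pool.Agent.FTU Pool.Agent.Helper49_Pauli
open MvPolynomial (C X)

theorem ev_add (et : ℝ) (J : Fin 3 → ℕ → ℕ → ℕ → ℝ) (ze : ℂ) (P Q : RR) :
    ev et J ze (P + Q) = ev et J ze P + ev et J ze Q := by
  unfold ev
  rw [map_add]

theorem ev_sub (et : ℝ) (J : Fin 3 → ℕ → ℕ → ℕ → ℝ) (ze : ℂ) (P Q : RR) :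
    ev et J ze (P - Q) = ev et J ze P - ev et J ze Q := by
  unfold ev
  rw [map_sub]

theorem ev_mul (et : ℝ) (J : Fin 3 → ℕ → ℕ → ℕ → ℝ) (ze : ℂ) (P Q : RR) :
    ev et J ze (P * Q) = ev et J ze P * ev et J ze Q := by
  unfold ev
  rw [map_mul]

theorem ev_pow (et : ℝ) (J : Fin 3 → ℕ → ℕ → ℕ → ℝ) (ze : ℂ) (P : RR) (n : ℕ) :
    ev et J ze (P ^ n) = ev et J ze P ^ n := by
  unfold ev
  rw [map_pow]

theorem ev_C (et : ℝ) (J : Fin 3 → ℕ → ℕ → ℕ → ℝ) (ze a : ℂ) :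
    ev et J ze (C a) = a := by
  unfold ev
  rw [MvPolynomial.eval_C]

theorem ev_X (et : ℝ) (J : Fin 3 → ℕ → ℕ → ℕ → ℝ) (ze : ℂ) (v : Var) :
    ev et J ze (X v) = pt et J ze v := by
  unfold ev
  rw [MvPolynomial.eval_X]

theorem cj_add (P Q : RR) : cj (P + Q) = cj P + cj Q := map_add cj P Q

theorem cj_mul (P Q : RR) : cj (P * Q) = cj P * cj Q := map_mul cj P Q

theorem cj_X (v : Var) : cj (X v) = X (sw v) := by
  unfold cj
  simp only [RingHom.comp_apply, MvPolynomial.map_X]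
  exact MvPolynomial.rename_X sw v

theorem cj_C (a : ℂ) : cj (C a) = C ((starRingEnd ℂ) a) := by
  unfold cj
  simp only [RingHom.comp_apply, MvPolynomial.map_C]
  exact MvPolynomial.rename_C sw _

theorem pt_sw (et : ℝ) (J : Fin 3 → ℕ → ℕ → ℕ → ℝ) (ze : ℂ) (v : Var) :
    pt et J ze (sw v) = (starRingEnd ℂ) (pt et J ze v) := by
  cases v with
  | eta => simp [sw, pt]
  | z => simp [sw, pt]
  | zb => simp [sw, pt]
  | jet c p q r => simp [sw, pt]

theorem ev_cj (et : ℝ) (J : Fin 3 → ℕ → ℕ → ℕ → ℝ) (ze : ℂ) (P : RR) :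
    ev et J ze (cj P) = (starRingEnd ℂ) (ev et J ze P) := by
  induction P using MvPolynomial.induction_on with
  | C a => rw [cj_C, ev_C, ev_C]
  | add p q hp hq => rw [cj_add, ev_add, ev_add, map_add, hp, hq]
  | mul_X p v hp => rw [cj_mul, ev_mul, ev_mul, map_mul, hp, cj_X, ev_X, ev_X, pt_sw]

theorem ev_indep (et : ℝ) (J : Fin 3 → ℕ → ℕ → ℕ → ℝ) (ze ze' : ℂ) (P : RR) (hP : P ∈ Jt) :
    ev et J ze P = ev et J ze' P := by
  unfold Jt at hP
  rw [MvPolynomial.mem_supported] at hP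
  refine MvPolynomial.eval₂Hom_congr' rfl ?_ rfl
  intro v hv _
  have h := hP hv
  cases v with
  | eta => rfl
  | z => exact absurd rfl h.1
  | zb => exact absurd rfl h.2
  | jet c p q r => rfl

theorem zt_re (et : ℝ) (x : X3) : (zt et x).re = x 0 / et ^ 2 := by
  have e : ((et : ℂ)) ^ 2 = ((et ^ 2 : ℝ) : ℂ) := by push_cast; rfl
  unfold zt
  rw [e, Complex.div_ofReal_re]
  simp

theorem zt_im (et : ℝ) (x : X3) : (zt et x).im = x 1 / et ^ 2 := by
  have e : ((et : ℂ)) ^ 2 = ((et ^ 2 : ℝ) : ℂ) := by push_cast; rfl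
  unfold zt
  rw [e, Complex.div_ofReal_im]
  simp

theorem ev_x1 (et : ℝ) (J : Fin 3 → ℕ → ℕ → ℕ → ℝ) (ze : ℂ) :
    ev et J ze x1 = ((ze.re : ℝ) : ℂ) := by
  unfold x1 xz xb
  rw [ev_mul, ev_add, ev_C, ev_X, ev_X]
  show (1 / 2 : ℂ) * (ze + (starRingEnd ℂ) ze) = _
  rw [Complex.add_conj]
  push_cast
  ring

theorem ev_x2 (et : ℝ) (J : Fin 3 → ℕ → ℕ → ℕ → ℝ) (ze : ℂ) :
    ev et J ze x2 = ((ze.im : ℝ) : ℂ) := by
  unfold x2 xz xb
  rw [ev_mul, ev_sub, ev_C, ev_X, ev_X]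
  show -(I / 2 : ℂ) * (ze - (starRingEnd ℂ) ze) = _
  rw [Complex.sub_conj]
  push_cast
  have hI : I * I = -1 := Complex.I_mul_I
  linear_combination (-(ze.im : ℂ)) * hI

theorem evr (_h1 : CjaStmt) : EvrStmt := by
  refine ⟨ev_cj, ev_indep, ?_, ?_⟩
  · intro et J ze P hP hcj
    rw [ev_indep et J ze 0 P hP]
    have h := ev_cj et J 0 P
    rw [hcj] at h
    exact (Complex.conj_eq_iff_re.1 h.symm).symm
  · intro M c et J x het
    have hC : (et : ℂ) ≠ 0 := by exact_mod_cast het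
    have h1 := ev_x1 et J (zt et x)
    have h2 := ev_x2 et J (zt et x)
    rw [zt_re] at h1
    rw [zt_im] at h2
    unfold TT
    have hsum : ∀ (s : Finset ℕ) (f : ℕ → RR), ev et J (zt et x) (∑ i ∈ s, f i) =
        ∑ i ∈ s, ev et J (zt et x) (f i) := fun s f => map_sum (MvPolynomial.eval _) f s
    rw [hsum, Complex.ofReal_sum]
    refine Finset.sum_congr rfl fun p _ => ?_
    rw [hsum, Complex.ofReal_sum]
    refine Finset.sum_congr rfl fun q _ => ?_
    by_cases hpq : p + q < M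
    · rw [if_pos hpq, if_pos hpq]
      rw [ev_mul, ev_mul, ev_mul, ev_mul, ev_C, ev_pow, ev_pow, ev_pow, h1, h2, ev_X]
      have he : ev et J (zt et x) xe = (et : ℂ) := by
        unfold xe
        rw [ev_X]
        rfl
      rw [he]
      show _ * ((J c p q 0 : ℝ) : ℂ) = _
      have hp : (p.factorial : ℂ) ≠ 0 := by exact_mod_cast p.factorial_ne_zero
      have hq : (q.factorial : ℂ) ≠ 0 := by exact_mod_cast q.factorial_ne_zero
      push_cast
      rw [div_pow, div_pow, ← pow_mul, ← pow_mul, mul_add, pow_add]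
      field_simp
    · rw [if_neg hpq, if_neg hpq]
      unfold ev
      rw [map_zero, Complex.ofReal_zero]

end Pool.Agent.FTU.H19
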