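import Pool.Agent.Helper19_FTU.EVR

/-!
# FTU, row EVX: the derivatives of `pol` in space
-/

set_option autoImplicit false

open MeasureTheory Complex ProbabilityTheory

namespace Pool.Agent.FTU.H19

open Pool.Agent.FTU Pool.Agent.Helper49_Pauli
open MvPolynomial (C X)

variable {ι : Type} [Fintype ι] (S : Sys ι) (et : ℝ) (y : ι → ℝ)

theorem pol_C (a : ℂ) : S.pol et (C a) y = fun _ => a := by
  funext x
  unfold Sys.pol
  rw [ev_C]

theorem pol_add (P Q : RR) : S.pol et (P + Q) y = fun x => S.pol et P y x + S.pol et Q y x := by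
  funext x
  unfold Sys.pol
  rw [ev_add]

theorem pol_mul (P Q : RR) : S.pol et (P * Q) y = fun x => S.pol et P y x * S.pol et Q y x := by
  funext x
  unfold Sys.pol
  rw [ev_mul]

/-- the coordinates as continuous linear maps -/
noncomputable def Lc (j : Fin 3) : X3 →L[ℝ] ℂ :=
  Complex.ofRealCLM.comp (ContinuousLinearMap.proj (R := ℝ) (φ := fun _ : Fin 3 => ℝ) j)

theorem Lc_apply (j : Fin 3) (x : X3) : Lc j x = ((x j : ℝ) : ℂ) := rfl

/-- the value of `zeta` as a continuous linear map -/
noncomputable def Lz : X3 →L[ℝ] ℂ := ((et : ℂ) ^ 2)⁻¹ • (Lc 0 + I • Lc 1)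

theorem Lz_apply (x : X3) : Lz et x = zt et x := by
  unfold Lz zt
  simp only [ContinuousLinearMap.smul_apply, ContinuousLinearMap.add_apply, Lc_apply, smul_eq_mul]
  rw [div_eq_inv_mul]

theorem pol_z : S.pol et (X Var.z) y = fun x => Lz et x := by
  funext x
  unfold Sys.pol
  rw [ev_X, Lz_apply]
  rfl

theorem pol_zb : S.pol et (X Var.zb) y = fun x => (Complex.conjCLE.toContinuousLinearMap.comp (Lz et)) x := by
  funext x
  unfold Sys.pol
  rw [ev_X]
  show (starRingEnd ℂ) (zt et x) = (starRingEnd ℂ) (Lz et x)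
  rw [Lz_apply]

theorem pol_eta : S.pol et (X Var.eta) y = fun _ => (et : ℂ) := by
  funext x
  unfold Sys.pol
  rw [ev_X]
  rfl

theorem pol_jet (c : Fin 3) (p q r : ℕ) : S.pol et (X (Var.jet c p q r)) y =
    fun x => ((S.jt et y (x 2) c p q r : ℝ) : ℂ) := by
  funext x
  unfold Sys.pol
  rw [ev_X]
  rfl

theorem jm_hasDerivAt (i : ι) (c : Fin 3) (p q r : ℕ) (z : ℝ) :
    HasDerivAt (S.jm i c p q r) (S.jm i c p q (r + 1) z) z := by
  unfold Sys.jm
  have h1 : HasDerivAt (fun z : ℝ => S.k i 2 * z - S.t i + ((p + q + r : ℕ) : ℝ) * (Real.pi / 2))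
      (S.k i 2) z := by
    have := (((hasDerivAt_id z).const_mul (S.k i 2)).sub_const (S.t i)).add_const
      (((p + q + r : ℕ) : ℝ) * (Real.pi / 2))
    simpa using this
  have h2 := (h1.cos).const_mul (S.c i * S.e i c * S.k i 0 ^ p * S.k i 1 ^ q * S.k i 2 ^ r)
  have e : S.c i * S.e i c * S.k i 0 ^ p * S.k i 1 ^ q * S.k i 2 ^ r *
      (-Real.sin (S.k i 2 * z - S.t i + ((p + q + r : ℕ) : ℝ) * (Real.pi / 2)) * S.k i 2) =
      S.c i * S.e i c * S.k i 0 ^ p * S.k i 1 ^ q * S.k i 2 ^ (r + 1) *
        Real.cos (S.k i 2 * z - S.t i + ((p + q + (r + 1) : ℕ) : ℝ) * (Real.pi / 2)) := by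
    have e2 : S.k i 2 * z - S.t i + ((p + q + (r + 1) : ℕ) : ℝ) * (Real.pi / 2) =
        S.k i 2 * z - S.t i + ((p + q + r : ℕ) : ℝ) * (Real.pi / 2) + Real.pi / 2 := by
      push_cast
      ring
    rw [e2, Real.cos_add_pi_div_two]
    ring
  rw [← e]
  exact h2

theorem jt_hasDerivAt (c : Fin 3) (p q r : ℕ) (z : ℝ) :
    HasDerivAt (fun z => S.jt et y z c p q r) (S.jt et y z c p q (r + 1)) z := by
  unfold Sys.jt
  have h : HasDerivAt (fun z => (∑ i, y i * S.jm i c p q r z) - idl et c p q r)
      (∑ i, y i * S.jm i c p q (r + 1) z) z :=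
    (HasDerivAt.fun_sum fun i _ => (jm_hasDerivAt S i c p q r z).const_mul (y i)).sub_const _
  have e : idl et c p q (r + 1) = 0 := by
    unfold idl
    rw [if_neg (by omega)]
  rw [e, sub_zero]
  exact h

theorem jt_contDiff (c : Fin 3) (p q r : ℕ) :
    ContDiff ℝ (⊤ : ℕ∞) (fun z => S.jt et y z c p q r) := by
  unfold Sys.jt Sys.jm
  fun_prop

/-- the derivative of a function of `x 2` -/
theorem jet_fderiv (c : Fin 3) (p q r : ℕ) (x : X3) :
    HasFDerivAt (fun x : X3 => ((S.jt et y (x 2) c p q r : ℝ) : ℂ))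
      (((S.jt et y (x 2) c p q (r + 1) : ℝ) : ℂ) • Lc 2) x := by
  have h1 := jt_hasDerivAt S et y c p q r (x 2)
  have h2 : HasFDerivAt (fun x : X3 => x 2)
      (ContinuousLinearMap.proj (R := ℝ) (φ := fun _ : Fin 3 => ℝ) 2) x :=
    (ContinuousLinearMap.proj (R := ℝ) (φ := fun _ : Fin 3 => ℝ) 2).hasFDerivAt
  have h3 := HasDerivAt.comp_hasFDerivAt (h₂ := fun z => S.jt et y z c p q r) x h1 h2
  have h4 := Complex.ofRealCLM.hasFDerivAt.comp x h3
  refine h4.congr_fderiv ?_
  ext v
  simp only [ContinuousLinearMap.comp_apply, ContinuousLinearMap.smul_apply, Lc_apply,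
    ContinuousLinearMap.proj_apply, smul_eq_mul, Complex.ofRealCLM_apply]
  push_cast
  rfl

theorem pol_contDiff (P : RR) : ContDiff ℝ (⊤ : ℕ∞) (S.pol et P y) := by
  induction P using MvPolynomial.induction_on with
  | C a =>
    rw [pol_C]
    exact contDiff_const
  | add p q hp hq =>
    rw [pol_add]
    exact hp.add hq
  | mul_X p v hp =>
    rw [pol_mul]
    refine hp.mul ?_
    cases v with
    | eta =>
      rw [pol_eta]
      exact contDiff_const
    | z =>
      rw [pol_z]
      exact (Lz et).contDiff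
    | zb =>
      rw [pol_zb]
      exact (Complex.conjCLE.toContinuousLinearMap.comp (Lz et)).contDiff
    | jet c p' q' r' =>
      rw [pol_jet]
      have h := jt_contDiff S et y c p' q' r'
      have h2 : ContDiff ℝ (⊤ : ℕ∞) (fun x : X3 => S.jt et y (x 2) c p' q' r') :=
        h.comp (contDiff_apply ℝ ℝ (2 : Fin 3))
      exact Complex.ofRealCLM.contDiff.comp h2

/-- a directional derivative is a derivation -/
theorem dir (D : Derivation ℂ RR RR) (c : ℂ) (e : X3)
    (hX : ∀ v x, fderiv ℝ (S.pol et (X v) y) x e = c * S.pol et (D (X v)) y x) (P : RR) :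
    ∀ x, fderiv ℝ (S.pol et P y) x e = c * S.pol et (D P) y x := by
  induction P using MvPolynomial.induction_on with
  | C a =>
    intro x
    have e0 : D (C a) = C 0 := by
      rw [map_zero]
      exact D.map_algebraMap a
    rw [e0, pol_C, pol_C]
    simp
  | add p q hp hq =>
    intro x
    have hdp := ((pol_contDiff S et y p).differentiable (by simp)) x
    have hdq := ((pol_contDiff S et y q).differentiable (by simp)) x
    have e1 : fderiv ℝ (S.pol et (p + q) y) x e =
        fderiv ℝ (S.pol et p y) x e + fderiv ℝ (S.pol et q y) x e := by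
      rw [pol_add]
      have h3 := (hdp.hasFDerivAt.add hdq.hasFDerivAt).fderiv
      have h4 : fderiv ℝ (fun x => S.pol et p y x + S.pol et q y x) x =
          fderiv ℝ (S.pol et p y) x + fderiv ℝ (S.pol et q y) x := h3
      rw [h4, ContinuousLinearMap.add_apply]
    rw [e1, map_add, pol_add, hp, hq]
    ring
  | mul_X p v hp =>
    intro x
    have hdp := ((pol_contDiff S et y p).differentiable (by simp)) x
    have hdq := ((pol_contDiff S et y (X v)).differentiable (by simp)) x
    have e1 : fderiv ℝ (S.pol et (p * X v) y) x e =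
        S.pol et p y x * fderiv ℝ (S.pol et (X v) y) x e +
          fderiv ℝ (S.pol et p y) x e * S.pol et (X v) y x := by
      rw [pol_mul]
      have h3 := (hdp.hasFDerivAt.mul hdq.hasFDerivAt).fderiv
      have h4 : fderiv ℝ (fun x => S.pol et p y x * S.pol et (X v) y x) x = _ := h3
      rw [h4, ContinuousLinearMap.add_apply, ContinuousLinearMap.smul_apply,
        ContinuousLinearMap.smul_apply, smul_eq_mul, smul_eq_mul]
      ring
    have e2 : D (p * X v) = p * D (X v) + X v * D p := by
      rw [Derivation.leibniz, smul_eq_mul, smul_eq_mul]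
    rw [e1, e2, pol_add, pol_mul, pol_mul, hp, hX]
    ring

theorem dzX (v : Var) : dz (X v) = if v = Var.z then 1 else 0 := by
  unfold dz
  rw [MvPolynomial.pderiv_X]
  by_cases h : v = Var.z
  · subst h
    simp
  · rw [Pi.single_eq_of_ne h, if_neg h]

theorem dbX (v : Var) : db (X v) = if v = Var.zb then 1 else 0 := by
  unfold db
  rw [MvPolynomial.pderiv_X]
  by_cases h : v = Var.zb
  · subst h
    simp
  · rw [Pi.single_eq_of_ne h, if_neg h]

theorem pol_one (x : X3) : S.pol et 1 y x = 1 := by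
  have := congrFun (pol_C S et y 1) x
  rwa [MvPolynomial.C_1] at this

theorem pol_zero (x : X3) : S.pol et 0 y x = 0 := by
  have := congrFun (pol_C S et y 0) x
  rwa [MvPolynomial.C_0] at this

theorem pol_neg_one (x : X3) : S.pol et (-1) y x = -1 := by
  have := congrFun (pol_C S et y (-1)) x
  rwa [map_neg, MvPolynomial.C_1] at this

theorem Lz_e0 : Lz et (Pi.single 0 1) = ((et : ℂ) ^ 2)⁻¹ := by
  unfold Lz
  simp [Lc_apply]

theorem Lz_e1 : Lz et (Pi.single 1 1) = I * ((et : ℂ) ^ 2)⁻¹ := by
  unfold Lz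
  simp [Lc_apply]
  ring

theorem Lz_e2 : Lz et (Pi.single 2 1) = 0 := by
  unfold Lz
  simp [Lc_apply]

theorem conj_et2 : (starRingEnd ℂ) (((et : ℂ) ^ 2)⁻¹) = ((et : ℂ) ^ 2)⁻¹ := by
  rw [map_inv₀, map_pow, Complex.conj_ofReal]

theorem fd_lin (L : X3 →L[ℝ] ℂ) (x : X3) : fderiv ℝ (fun x => L x) x = L := L.fderiv

theorem evx : EvxStmt := by
  intro ι _ S et het P y
  refine ⟨pol_contDiff S et y P, fun x => ⟨?_, ?_, ?_⟩⟩
  · have h := dir S et y (dz + db) ((et : ℂ) ^ 2)⁻¹ (Pi.single 0 1) (by
      intro v x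
      rw [Derivation.add_apply, dzX, dbX]
      cases v with
      | eta =>
        rw [pol_eta, if_neg (by simp), if_neg (by simp), add_zero, pol_zero]
        simp
      | z =>
        rw [pol_z, if_pos rfl, if_neg (by simp), add_zero, pol_one, fd_lin, Lz_e0, mul_one]
      | zb =>
        rw [pol_zb, if_neg (by simp), if_pos rfl, zero_add, pol_one, fd_lin, mul_one]
        show (starRingEnd ℂ) (Lz et (Pi.single 0 1)) = _
        rw [Lz_e0, conj_et2]
      | jet c p q r =>
        rw [pol_jet, if_neg (by simp), if_neg (by simp), add_zero, pol_zero,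
          (jet_fderiv S et y c p q r x).fderiv]
        simp [Lc_apply]) P x
    rw [h, Derivation.add_apply, div_eq_inv_mul]
  · have h := dir S et y (dz - db) (I * ((et : ℂ) ^ 2)⁻¹) (Pi.single 1 1) (by
      intro v x
      rw [Derivation.sub_apply, dzX, dbX]
      cases v with
      | eta =>
        rw [pol_eta, if_neg (by simp), if_neg (by simp), sub_zero, pol_zero]
        simp
      | z =>
        rw [pol_z, if_pos rfl, if_neg (by simp), sub_zero, pol_one, fd_lin, Lz_e1, mul_one]
      | zb =>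
        rw [pol_zb, if_neg (by simp), if_pos rfl, zero_sub, pol_neg_one, fd_lin]
        show (starRingEnd ℂ) (Lz et (Pi.single 1 1)) = _
        rw [Lz_e1, map_mul, conj_et2, Complex.conj_I]
        ring
      | jet c p q r =>
        rw [pol_jet, if_neg (by simp), if_neg (by simp), sub_zero, pol_zero,
          (jet_fderiv S et y c p q r x).fderiv]
        simp [Lc_apply]) P x
    rw [h, Derivation.sub_apply, div_eq_inv_mul]
    ring
  · have h := dir S et y dt 1 (Pi.single 2 1) (by
      intro v x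
      unfold dt
      rw [MvPolynomial.mkDerivation_X]
      cases v with
      | eta =>
        rw [pol_eta]
        show _ = 1 * S.pol et 0 y x
        rw [pol_zero]
        simp
      | z =>
        rw [pol_z, fd_lin, Lz_e2]
        show _ = 1 * S.pol et 0 y x
        rw [pol_zero, mul_zero]
      | zb =>
        rw [pol_zb, fd_lin]
        show (starRingEnd ℂ) (Lz et (Pi.single 2 1)) = 1 * S.pol et 0 y x
        rw [pol_zero, mul_zero, Lz_e2, map_zero]
      | jet c p q r =>
        rw [pol_jet, (jet_fderiv S et y c p q r x).fderiv]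
        show _ = 1 * S.pol et (X (Var.jet c p q (r + 1))) y x
        rw [pol_jet]
        simp [Lc_apply]) P x
    rw [h, one_mul]

end Pool.Agent.FTU.H19
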